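import Pool.Agent.H84.ND.Targets2

/-! JSA: a form of low degree in the saturation of the Jacobian ideal. -/

set_option autoImplicit false

namespace Pool.Agent.H36.ND

open MvPolynomial _root_.SC Pool.Agent.H27.LV Pool.Agent.H84.SM Pool.Agent.H84.ND

/-- the value of a form at a multiple of a point -/
theorem jsa_smul {k : Type} [Field k] {f : MvPolynomial (Fin 3) k} {r : ℕ}
    (hf : f.IsHomogeneous r) (c : k) (s : Fin 3 → k) : eval (c • s) f = c ^ r * eval s f := by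
  rw [MvPolynomial.eval_eq', MvPolynomial.eval_eq', Finset.mul_sum]
  refine Finset.sum_congr rfl fun m hm => ?_
  have hm' : ∑ i, m i = r := by
    have h2 := hf (MvPolynomial.mem_support_iff.1 hm)
    rw [Finsupp.weight_apply, Finsupp.sum_fintype _ _ (by simp)] at h2
    simpa using h2
  simp only [Pi.smul_apply, smul_eq_mul, mul_pow, Finset.prod_mul_distrib,
    Finset.prod_pow_eq_pow_sum, hm']
  ring

theorem jsa_num {d t : ℕ} (hd : 20 ≤ d) (ht : 36 * t ≤ d ^ 2) :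
    12 * ((3 * d - 9) / 12) + 8 < 3 * d ∧ t < ((3 * d - 9) / 12 + 2).choose 2 := by
  obtain ⟨r, hr⟩ : ∃ r, r = (3 * d - 9) / 12 := ⟨_, rfl⟩
  rw [← hr]
  have h1 : 12 * r + 8 < 3 * d := by omega
  have h2 : 3 * d ≤ 12 * r + 20 := by omega
  refine ⟨h1, ?_⟩
  have h3 : 2 * (r + 2).choose 2 = (r + 2) * (r + 1) := by
    rw [Nat.choose_two_right, Nat.mul_div_cancel' (Nat.even_mul_pred_self (r + 2)).two_dvd]
    congr 1
  have h4 : d ^ 2 < 18 * ((r + 2) * (r + 1)) := by nlinarith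
  omega

theorem pf_JSA (hFTP : T_FTP) (hNLO : T_NLO) : T_JSA := by
  intro k _ _ _ G d hd hG
  obtain ⟨T, hT, hT1⟩ := hG.few
  obtain ⟨h1, h2⟩ := jsa_num hd hT
  obtain ⟨r, hr⟩ : ∃ r, r = (3 * d - 9) / 12 := ⟨_, rfl⟩
  rw [← hr] at h1 h2
  obtain ⟨f, hf0, hf, hfT⟩ := hFTP k T r h2
  obtain ⟨J, hJ⟩ : ∃ J : Ideal (MvPolynomial (Fin 3) k),
    J = Ideal.span (Set.range fun i => pderiv i G) := ⟨_, rfl⟩
  obtain ⟨I, hI⟩ : ∃ I : Ideal (MvPolynomial (Fin 3) k), ∀ h, h ∈ I ↔ h * f ∈ J :=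
    ⟨Submodule.comap (LinearMap.toSpanSingleton (MvPolynomial (Fin 3) k)
      (MvPolynomial (Fin 3) k) f) J, fun h => Iff.rfl⟩
  have hrad : ∀ i, (X i : MvPolynomial (Fin 3) k) ∈ I.radical := by
    intro i
    rw [← vanishingIdeal_zeroLocus_eq_radical (K := k), mem_vanishingIdeal_iff]
    intro x hx
    have h3 : x = 0 := by
      by_contra hx0
      by_cases hS : Sing G x
      · obtain ⟨s', hs', c, hc⟩ := hT1 x hS
        have h4 : eval x f = 0 := by
          rw [hc, jsa_smul hf, hfT s' hs', mul_zero]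
        obtain ⟨h, h5, h6⟩ := hNLO k G d (by omega) hG.ird.hom x (hG.nod x hS) r f hf h4
        have h7 := hx h ((hI h).2 (by rw [hJ]; exact h6))
        rw [aeval_eq_eval] at h7
        exact h5 h7
      · refine hS ⟨hx0, fun j => ?_⟩
        have h7 := hx (pderiv j G) ((hI _).2 (by
          rw [hJ]
          exact Ideal.mul_mem_right _ _ (Ideal.subset_span ⟨j, rfl⟩)))
        rw [aeval_eq_eval] at h7
        exact h7
    rw [h3]
    simp
  have hN : ∀ i, ∃ N, (X i : MvPolynomial (Fin 3) k) ^ N ∈ I := fun i => hrad i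
  choose N hN using hN
  refine ⟨r, f, ∑ i, N i, h1, hf0, hf, fun j => ?_⟩
  rw [← hJ, ← hI, ← Nat.sub_add_cancel (Finset.single_le_sum (f := N)
    (fun _ _ => Nat.zero_le _) (Finset.mem_univ j)), pow_add]
  exact Ideal.mul_mem_left _ _ (hN j)

end Pool.Agent.H36.ND
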