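import Pool.Agent.H84.ND.Targets2

/-! LRM: restriction to a line as a linear map. -/

set_option autoImplicit false

namespace Pool.Agent.H36.ND

open MvPolynomial _root_.SC Pool.Agent.H27.LV Pool.Agent.H84.SM Pool.Agent.H84.ND

section

variable {k : Type} [Field k]

theorem lrm_gL_ne {G : MvPolynomial (Fin 3) k} {a b : Fin 3 → k} (h : eval a G ≠ 0) :
    gL G a b ≠ 0 := by
  intro h0
  apply h
  have h1 := congrArg (eval ![(1 : k), 0]) h0
  rw [map_zero] at h1
  rw [← h1]
  unfold gL
  have h2 : (aeval ![(1 : k), 0] : LL k →ₐ[k] k).comp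
      (aeval (fun i => (C (a i) * X 0 + C (b i) * X 1 : LL k))) =
      (aeval a : MvPolynomial (Fin 3) k →ₐ[k] k) := by
    refine MvPolynomial.algHom_ext fun i => ?_
    simp
  have h3 := DFunLike.congr_fun h2 G
  rw [AlgHom.comp_apply, aeval_eq_eval, aeval_eq_eval] at h3
  exact h3.symm

theorem lrm_rho_gA (G : MvPolynomial (Fin 3) k) (a b n : Fin 3 → k) :
    rho a b n (gA G) = Polynomial.C (gL G a b) := by
  have h2 : (rho a b n).comp (aeval (xa (k := k))) =
      (Polynomial.CAlgHom (R := k) (A := LL k)).comp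
        (aeval (fun i => (C (a i) * X 0 + C (b i) * X 1 : LL k))) := by
    refine MvPolynomial.algHom_ext fun i => ?_
    rw [AlgHom.comp_apply, AlgHom.comp_apply, aeval_X, aeval_X]
    unfold xa rho
    rw [aeval_X]
    rfl
  exact DFunLike.congr_fun h2 G

theorem lrm_coeff (G : MvPolynomial (Fin 3) k) (a b n : Fin 3 → k) (M r : ℕ) (c : A2 k) :
    (rho a b n (gA G ^ M * c)).coeff r = gL G a b ^ M * (rho a b n c).coeff r := by
  rw [map_mul, map_pow, lrm_rho_gA, ← Polynomial.C_pow, Polynomial.coeff_C_mul]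

end

theorem pf_LRM (hSME : T_SME) : T_LRM := by
  intro k _ _ _ G d hd hG hsq a b n hT i t r
  have hG0 : G ≠ 0 := by
    rintro rfl
    exact hT.off (map_zero _)
  have hL0 : gL G a b ≠ 0 := lrm_gL_ne hT.off
  have hinj := IsFractionRing.injective (A2 k) (F2 k)
  obtain ⟨ι, hι⟩ : ∃ ι : LL k →+* FractionRing (LL k),
    ι = algebraMap (LL k) (FractionRing (LL k)) := ⟨_, rfl⟩
  have hι0 : ι (gL G a b) ≠ 0 := by
    rw [hι]
    intro h
    exact hL0 (IsFractionRing.injective (LL k) (FractionRing (LL k)) (h.trans (map_zero _).symm))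
  have hex : ∀ f : SJ G d i t, ∃ (M : ℕ) (c : A2 k),
      gF G ^ M * (f : F2 k) = algebraMap (A2 k) (F2 k) c := by
    intro f
    obtain ⟨M, c, -, h⟩ := (hSME k G d hd hG hG0 i t f).1 f.2
    exact ⟨M, c, h⟩
  choose m c hc using hex
  have key : ∀ (f : SJ G d i t) (M : ℕ) (c' : A2 k),
      gF G ^ M * (f : F2 k) = algebraMap (A2 k) (F2 k) c' →
      ι (gL G a b) ^ M * (ι ((rho a b n (c f)).coeff r) / ι (gL G a b) ^ m f) =
        ι ((rho a b n c').coeff r) := by
    intro f M c' h
    have h1 : gA G ^ M * c f = gA G ^ m f * c' := by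
      apply hinj
      rw [map_mul, map_mul, map_pow, map_pow, ← hc, ← h]
      change gF G ^ M * (gF G ^ m f * (f : F2 k)) = gF G ^ m f * (gF G ^ M * (f : F2 k))
      ring
    have h2 := congrArg (fun z => (rho a b n z).coeff r) h1
    simp only [lrm_coeff] at h2
    have h3 := congrArg ι h2
    rw [map_mul, map_mul, map_pow, map_pow] at h3
    rw [← mul_div_assoc, h3]
    field_simp
  have hsm : ∀ (z : k) (p : LL k), ι (z • p) = z • ι p := by
    intro z p
    rw [hι, Algebra.algebraMap_eq_smul_one, Algebra.algebraMap_eq_smul_one, smul_assoc]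
  refine ⟨{ toFun := fun f => ι ((rho a b n (c f)).coeff r) / ι (gL G a b) ^ m f
            map_add' := ?_
            map_smul' := ?_ }, ?_⟩
  · intro f1 f2
    have h1 := key (f1 + f2) (m f1 + m f2) (gA G ^ m f2 * c f1 + gA G ^ m f1 * c f2) (by
      rw [map_add, map_mul, map_mul, map_pow, map_pow, ← hc, ← hc]
      change gF G ^ (m f1 + m f2) * ((f1 : F2 k) + (f2 : F2 k)) =
        gF G ^ m f2 * (gF G ^ m f1 * (f1 : F2 k)) + gF G ^ m f1 * (gF G ^ m f2 * (f2 : F2 k))
      ring)
    rw [map_add, Polynomial.coeff_add, lrm_coeff, lrm_coeff, map_add, map_mul, map_mul,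
      map_pow, map_pow] at h1
    refine mul_left_cancel₀ (pow_ne_zero (m f1 + m f2) hι0) (h1.trans ?_)
    rw [mul_add, pow_add]
    field_simp
  · intro z f
    have h1 := key (z • f) (m f) (z • c f) (by
      rw [Algebra.smul_def z (c f), map_mul, ← hc, ← IsScalarTower.algebraMap_apply k (A2 k) (F2 k)]
      change gF G ^ m f * (z • (f : F2 k)) = _
      rw [Algebra.smul_def]
      ring)
    rw [map_smul, Polynomial.coeff_smul, hsm] at h1
    refine mul_left_cancel₀ (pow_ne_zero (m f) hι0) (h1.trans ?_)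
    rw [RingHom.id_apply, mul_smul_comm]
    field_simp
  · intro f M c' _ h
    rw [← hι]
    exact key f M c' h

end Pool.Agent.H36.ND
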