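import Pool.Agent.H84.ND.Targets2
import Pool.Agent.H16.SM.CEN
import Pool.Agent.H51.SM.FNS
import Pool.Agent.H86.SM.SM3

/-! SMN: the degree of the solutions of a connection, nodal curves. -/

set_option autoImplicit false

namespace Pool.Agent.H36.ND

open MvPolynomial _root_.SC Pool.Agent.H27.LV Pool.Agent.H84.SM Pool.Agent.H84.ND
open Pool.Agent.H86.SM (sm3_ndvd sm3_lin sm3_cen)

/-- the local inequality at a point -/
def QQ {k : Type} [Field k] (G A : MvPolynomial (Fin 3) k) (d α : ℕ) (b : A2 k) (s : Fin 3 → k)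
    (C : ℕ) : Prop :=
  ∀ (K : Type) [Field K] [Algebra k K] [Algebra.EssFiniteType k K],
  Algebra.trdeg k K = 1 → ∀ (D : Derivation k K K), D ≠ 0 → ∀ (x : Fin 3 → K) (v : DV k K),
  (∃ j, x j = 1) → Prim k x → NL k x → aeval x G ≠ 0 → aeval x A ≠ 0 → CEq D A b x →
  Cen v x s → nord v x d G ≤ nord v x α A ∨ nord v x d G ≤ 2 * nord v x α A ∨ nord v x d G ≤ C

/-- the points at which the inequality has a constant -/
def PP {k : Type} [Field k] (G A : MvPolynomial (Fin 3) k) (s : Fin 3 → k) : Prop :=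
  s ≠ 0 ∧ eval s G = 0 ∧ (Sing G s ∨ (¬ Sing G s ∧ eval s A = 0))

theorem smn_cen {k K : Type} [Field k] [Field K] [Algebra k K] (v : DV k K) (x : Fin 3 → K)
    (a' : Fin 3 → k) (z0 : k) (hz0 : z0 ≠ 0) (h : Cen v x a') : Cen v x (z0 • a') := by
  refine sm3_cen v x (z0 • a') z0⁻¹ (inv_ne_zero hz0) ?_
  rw [smul_smul, inv_mul_cancel₀ hz0, one_smul]
  exact h

theorem smn_loc (hLAP : T_LAP) (hLCN : T_LCN) {k : Type} [Field k] [IsAlgClosed k] [CharZero k]
    (G A : MvPolynomial (Fin 3) k) (d α : ℕ) (b : A2 k) (hN : Nodal G d) (hC : Conn G α A b)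
    (hα : α < d) (s : Fin 3 → k) (hs : PP G A s) : ∃ C : ℕ, QQ G A d α b s C := by
  obtain ⟨hs0, hsG, h | ⟨h, hA⟩⟩ := hs
  · obtain ⟨C, hC'⟩ := hLCN k G d α A b hN.ird hC hα s (hN.nod s h)
    refine ⟨C, ?_⟩
    intro K _ _ _ htr D hD x v h1 h2 h3 h4 h5 h6 h7
    exact Or.inr (hC' K htr D hD x v h1 h2 h3 h4 h5 h6 h7)
  · obtain ⟨C, hC'⟩ := hLAP k G d α A b hN.ird hC hα s hs0 hsG h hA
    refine ⟨C, ?_⟩
    intro K _ _ _ htr D hD x v h1 h2 h3 h4 h5 h6 h7
    rcases hC' K htr D hD x v h1 h2 h3 h4 h5 h6 h7 with h8 | h8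
    · exact Or.inl h8
    · exact Or.inr (Or.inr h8)

theorem smn_rep (hLAP : T_LAP) (hLCN : T_LCN) {k : Type} [Field k] [IsAlgClosed k] [CharZero k]
    (G A : MvPolynomial (Fin 3) k) (d α : ℕ) (b : A2 k) (hN : Nodal G d) (hC : Conn G α A b)
    (hα : α < d) (a' : Fin 3 → k) : ∃ C : ℕ, ∀ c : k, c ≠ 0 → PP G A (c • a') →
    QQ G A d α b a' C := by
  by_cases h : ∃ c : k, c ≠ 0 ∧ PP G A (c • a')
  · obtain ⟨c, hc, hP⟩ := h
    obtain ⟨C, hC'⟩ := smn_loc hLAP hLCN G A d α b hN hC hα _ hP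
    refine ⟨C, fun _ _ _ => ?_⟩
    intro K _ _ _ htr D hD x v h1 h2 h3 h4 h5 h6 h7
    exact hC' K htr D hD x v h1 h2 h3 h4 h5 h6 (smn_cen v x a' c hc h7)
  · exact ⟨0, fun c h1 h2 => absurd ⟨c, h1, h2⟩ h⟩

theorem pf_SMN (hLAP : T_LAP) (hLBP : T_LBP) (hLCN : T_LCN) : T_SMN := by
  classical
  intro k _ _ _ G d α A b hN hC hα2
  have hα : α < d := by omega
  have hd := hN.ird
  have hG0 : G ≠ 0 := hd.irr.ne_zero
  obtain ⟨s0, hs0, hs1⟩ := Pool.Agent.H51.SM.pf_FNS k G A d α hd.hom hC.hA hd.irr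
    (sm3_ndvd hd.hom hG0 hC.hA hC.ne hα)
  obtain ⟨T0, -, hT0⟩ := hN.few
  choose Cf hCf using smn_rep hLAP hLCN G A d α b hN hC hα
  obtain ⟨C0, hC0⟩ : ∃ C0 : ℕ, C0 = 1 + ∑ a' ∈ s0 ∪ T0, Cf a' := ⟨_, rfl⟩
  have hC1 : 1 ≤ C0 := by omega
  have hCle : ∀ a' ∈ s0 ∪ T0, Cf a' ≤ C0 := by
    intro a' ha'
    have := Finset.single_le_sum (f := Cf) (fun _ _ => Nat.zero_le _) ha'
    omega
  have hmul : ∀ s, PP G A s → ∃ a' ∈ s0 ∪ T0, ∃ z : k, z ≠ 0 ∧ s = z • a' := by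
    rintro s ⟨h1, h2, h3 | ⟨h3, h4⟩⟩
    · obtain ⟨a', ha', c, hc⟩ := hT0 s h3
      refine ⟨a', Finset.mem_union_right _ ha', c, ?_, hc⟩
      rintro rfl
      rw [zero_smul] at hc
      exact h1 hc
    · obtain ⟨a', ha', z, hz, hsz⟩ := hs1 s h1 h2 h4
      exact ⟨a', Finset.mem_union_left _ ha', z, hz, hsz⟩
  refine ⟨C0 + α, ?_⟩
  intro K _ _ _ htr D hD x S hPr hcrv heq
  by_cases hA0 : aeval x A = 0
  · exact Or.inl ⟨α, A, by omega, hC.ne, hC.hA, hA0⟩
  by_cases hNL : NL k x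
  swap
  · obtain ⟨Φ, h1, h2, h3⟩ := sm3_lin x hNL
    exact Or.inl ⟨1, Φ, by omega, h1, h2, h3⟩
  right
  -- local inequality
  have hloc : ∀ v : DV k K, 0 ≤ nord v x α A ∧ nord v x d G ≤ 2 * nord v x α A + C0 := by
    intro v
    obtain ⟨⟨s, hs, hcen⟩, hcc⟩ := Pool.Agent.H16.SM.pf_CEN k K htr v x hcrv.one
    obtain ⟨z, hz, hzx⟩ := id hcen
    obtain ⟨-, hP⟩ := hcc s hs z hz hzx
    obtain ⟨-, g1, g2, g3⟩ := hP d G hd.hom hcrv.ne
    obtain ⟨-, a1, a2, a3⟩ := hP α A hC.hA hA0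
    refine ⟨a1, ?_⟩
    have hc0 : (0 : ℤ) ≤ C0 := Int.natCast_nonneg _
    by_cases hsG : eval s G = 0
    · by_cases hPs : PP G A s
      · obtain ⟨a', ha', z0, hz0, hsz⟩ := hmul s hPs
        have hcen' : Cen v x a' := sm3_cen v x a' z0 hz0 (by rw [← hsz]; exact hcen)
        have h3 := hCf a' z0 hz0 (by rw [← hsz]; exact hPs) K htr D hD x v hcrv.one hPr hNL
          hcrv.ne hA0 heq hcen'
        have h4 := hCle a' ha'
        have h5 : (Cf a' : ℤ) ≤ C0 := by exact_mod_cast h4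
        rcases h3 with h3 | h3 | h3 <;> omega
      · have h6 : ¬ Sing G s := fun h => hPs ⟨hs, hsG, Or.inl h⟩
        have h7 : eval s A ≠ 0 := fun h => hPs ⟨hs, hsG, Or.inr ⟨h6, h⟩⟩
        have h3 := hLBP k G d α A b hd hC hα s hs hsG h6 h7 K htr D hD x v hcrv.one
          hPr hNL hcrv.ne hA0 heq hcen
        have : (1 : ℤ) ≤ C0 := by exact_mod_cast hC1
        omega
    · have h3 := g2 hsG
      omega
  -- global sums
  obtain ⟨fG, sG⟩ := pfm k K htr (aeval x G)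
  obtain ⟨fA, sA⟩ := pfm k K htr (aeval x A)
  have fP := pfi k K htr (Fin 3) x
  obtain ⟨T, hT⟩ : ∃ T : Finset (DV k K), T = (fG.union (fA.union fP)).toFinset ∪ S := ⟨_, rfl⟩
  have hT' : ∀ v, v ∉ T → v.ord (aeval x G) = 0 ∧ v.ord (aeval x A) = 0 ∧ poleOrder v x = 0 := by
    intro v hv
    rw [hT, Finset.mem_union, Set.Finite.mem_toFinset] at hv
    push Not at hv
    obtain ⟨hv, -⟩ := hv
    simp only [Set.mem_union, Set.mem_ofPred_eq, not_or, not_not] at hv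
    exact ⟨hv.1, hv.2.1, hv.2.2⟩
  have eG : ∑ v ∈ T, v.ord (aeval x G) = 0 := by
    rw [← sG, finsum_eq_sum_of_support_subset]
    intro v hv
    by_contra hcon
    exact hv (hT' v hcon).1
  have eA : ∑ v ∈ T, v.ord (aeval x A) = 0 := by
    rw [← sA, finsum_eq_sum_of_support_subset]
    intro v hv
    by_contra hcon
    exact hv (hT' v hcon).2.1
  have eP : deg k x = ∑ v ∈ T, poleOrder v x := by
    unfold deg
    rw [finsum_eq_sum_of_support_subset]
    intro v hv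
    by_contra hcon
    exact hv (hT' v hcon).2.2
  have hsum : ∑ v ∈ T, nord v x d G ≤
      ∑ v ∈ T, (2 * nord v x α A + if v ∈ S then (C0 : ℤ) else 0) := by
    refine Finset.sum_le_sum fun v _ => ?_
    split_ifs with hv
    · exact (hloc v).2
    · have h6 := hcrv.off v hv
      have h7 : nord v x d G = 0 := by
        unfold nord
        rw [h6]
        ring
      rw [h7, add_zero]
      have := (hloc v).1
      omega
  have e1 : ∑ v ∈ T, nord v x d G = d * (deg k x : ℤ) := by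
    unfold nord
    rw [Finset.sum_add_distrib, eG, eP, zero_add, ← Finset.mul_sum]
    push_cast
    rfl
  have e2 : ∑ v ∈ T, (2 * nord v x α A + if v ∈ S then (C0 : ℤ) else 0) =
      2 * (α * (deg k x : ℤ)) + C0 * S.card := by
    unfold nord
    rw [Finset.sum_add_distrib, ← Finset.mul_sum, Finset.sum_add_distrib, eA, eP, zero_add,
      ← Finset.mul_sum]
    have h8 : T.filter (fun v => v ∈ S) = S := by
      ext v
      rw [Finset.mem_filter]
      refine ⟨fun h => h.2, fun h => ⟨?_, h⟩⟩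
      rw [hT]
      exact Finset.mem_union_right _ h
    have h9 : ∑ v ∈ T, (if v ∈ S then (C0 : ℤ) else 0) = C0 * S.card := by
      rw [← Finset.sum_filter, h8, Finset.sum_const, nsmul_eq_mul]
      ring
    rw [h9]
    push_cast
    rfl
  rw [e1, e2] at hsum
  have h10 : (2 * (α : ℤ) + 1) * deg k x ≤ d * deg k x := by
    have : 2 * (α : ℤ) + 1 ≤ d := by exact_mod_cast hα2
    exact mul_le_mul_of_nonneg_right this (Int.natCast_nonneg _)
  have h11 : (deg k x : ℤ) ≤ C0 * S.card := by nlinarith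
  have h12 : deg k x ≤ C0 * S.card := by exact_mod_cast h11
  refine h12.trans ?_
  exact Nat.mul_le_mul_right _ (by omega)

end Pool.Agent.H36.ND
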